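import Pool.Agent.H917Z.HIF.NotRE
import Pool.Agent.H917Z.HIF.NCR
import Pool.Agent.H917Z.HIF.Delta

set_option autoImplicit false

open Computability Pool.Agent.H917Z.HIF.Defs

/-- There is a hyperarithmetic NCR real such that no real of its degree has a self-modulus. -/
theorem Pool.Agent.Results.MP_4b35b9_lc.NoSelfModulus.result :
    ∃ A : ℕ → Bool, Delta11 A ∧ NCR A ∧
      ∀ B : ℕ → Bool, orc B ≡ᵀ orc A → ¬ HasSelfModulus B := by
  obtain ⟨L, A, h⟩ := Pool.Agent.H917Z.HIF.exists_pt
  exact ⟨A, h.delta, h.ncr (TuringReducible.refl _), fun B hB => h.no_modulus hB⟩
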